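import Pool.Agent.H315.SAW.StarFin
import Pool.Agent.TH795.EP2.Fin

/-!
# Mutually avoiding self-avoiding walks: prescribed star shapes and small boxes

Independent uniform self-avoiding walks on `ℤ²` started at the origin.  Let `ξ_m` be the correlation
length at distance `1/m` from the critical point.  The walks avoid each other (apart from the start)
and follow any given dilated coarse star with arms of `N_1, …, N_k` steps with probability at least
`exp (- K ∑ (N_i + 1) (log m)^3)`, for some dilation `D ≤ K ξ_m (log m)^2`.  Four walks with `n`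
steps avoid each other and stay in the box `[-r, r]²` with probability at least
`exp (- K (1 + n / m) (log m)^3)` if `K ξ_m (log m)^2 ≤ r` and `K n (ξ_m (log m)^2)^2 ≤ m r^2`.
-/

set_option autoImplicit false

namespace Pool.Agent.Results.MP_8c6f77_pr.ConfinedStars

open Filter Topology

/-- `ω` is an `n`-step self-avoiding walk on `ℤ²` started at the origin. -/
def IsSAW (n : ℕ) (ω : Fin (n + 1) → ℤ × ℤ) : Prop :=
  ω 0 = (0, 0) ∧
  (∀ i : Fin n, |(ω i.succ).1 - (ω i.castSucc).1| + |(ω i.succ).2 - (ω i.castSucc).2| = 1) ∧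
  Function.Injective ω

/-- `c_n`: the number of `n`-step self-avoiding walks from the origin -/
noncomputable def c (n : ℕ) : ℕ := Nat.card {ω : Fin (n + 1) → ℤ × ℤ // IsSAW n ω}

/-- `c_n(x)`: the number of `n`-step self-avoiding walks from the origin to `x` -/
noncomputable def cx (n : ℕ) (x : ℤ × ℤ) : ℕ :=
  Nat.card {ω : Fin (n + 1) → ℤ × ℤ // IsSAW n ω ∧ ω (Fin.last n) = x}

/-- the two-point function `G_z(x) = ∑_n c_n(x) z^n` -/
noncomputable def G (z : ℝ) (x : ℤ × ℤ) : ℝ := ∑' n : ℕ, (cx n x : ℝ) * z ^ n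

/-- the walks `ω 0, …, ω (k - 1)` avoid each other, apart from their common start -/
def Avoid {k : ℕ} {n : Fin k → ℕ} (ω : (i : Fin k) → (Fin (n i + 1) → ℤ × ℤ)) : Prop :=
  ∀ i j, i ≠ j → ∀ s t, ω i s = ω j t → s = 0 ∧ t = 0

/-- the probability that independent uniform self-avoiding walks `ω i` with `n i` steps (`i < k`)
avoid each other, apart from their common start, and satisfy `E` -/
noncomputable def P {k : ℕ} (n : Fin k → ℕ)
    (E : ((i : Fin k) → (Fin (n i + 1) → ℤ × ℤ)) → Prop) : ℝ :=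
  (Nat.card {ω : (i : Fin k) → (Fin (n i + 1) → ℤ × ℤ) //
    (∀ i, IsSAW (n i) (ω i)) ∧ Avoid ω ∧ E ω} : ℝ) / ∏ i, (c (n i) : ℝ)

/-- `ω` follows the dilated coarse walk `D γ` at speed `M`: `ω(M i) = D γ(i)`, and `ω(t)` stays
within distance `D` (maximum norm) from `D γ(i)` for `M i ≤ t < M (i + 1)`. -/
def Follows (D M N : ℕ) (γ : Fin (N + 1) → ℤ × ℤ) (ω : Fin (M * N + 1) → ℤ × ℤ) : Prop :=
  ∀ (i : Fin (N + 1)) (t : Fin (M * N + 1)), M * (i : ℕ) ≤ t → (t : ℕ) < M * (i + 1) →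
    ((t : ℕ) = M * i → ω t = (D * (γ i).1, D * (γ i).2)) ∧
    |(ω t).1 - D * (γ i).1| ≤ D ∧ |(ω t).2 - D * (γ i).2| ≤ D

/-- the four walks stay in the box `[-r, r]²` -/
def InBox (r : ℝ) (n : ℕ) (ω : (i : Fin 4) → (Fin (n + 1) → ℤ × ℤ)) : Prop :=
  ∀ i t, |((ω i t).1 : ℝ)| ≤ r ∧ |((ω i t).2 : ℝ)| ≤ r

theorem c_eq (n : ℕ) : c n = TH795.EP.c n := TH795.EP2.card_walks n

theorem cx_eq (n : ℕ) (x : ℤ × ℤ) : cx n x = TH795.EP.a n x.1 x.2 := TH795.EP2.card_walks_to n x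

theorem G_eq (z : ℝ) (k : ℕ) : G z ((k : ℤ), 0) = Y981.L2.Gz z k 0 := by
  unfold G Y981.L2.Gz
  apply tsum_congr
  intro n
  rw [cx_eq]

theorem isSAW_iff (n : ℕ) (ω : Fin (n + 1) → ℤ × ℤ) : IsSAW n ω ↔ ω ∈ H122R3.SX.walks n := by
  constructor
  · rintro ⟨h1, h2, h3⟩
    refine ⟨h1, h3, fun i => ?_⟩
    unfold H122R3.SX.Adj
    rw [abs_sub_comm, abs_sub_comm (ω i.castSucc).2]
    exact h2 i
  · rintro ⟨h1, h2, h3⟩
    refine ⟨h1, fun i => ?_, h2⟩
    have := h3 i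
    unfold H122R3.SX.Adj at this
    rw [abs_sub_comm, abs_sub_comm (ω i.castSucc).2] at this
    exact this

theorem c_eq' (n : ℕ) : c n = H122R3.SX.c n := by
  rw [← H122R3.SX.ncard_walks, ← Nat.card_coe_set_eq]
  exact Nat.card_congr (Equiv.subtypeEquivRight (isSAW_iff n))

theorem c_pos (n : ℕ) : (0 : ℝ) < c n := by
  have h := TH795.EP2.c_pos n
  rw [c_eq]
  exact_mod_cast h

theorem card_eq {k : ℕ} (n : Fin k → ℕ) (E : ((i : Fin k) → (Fin (n i + 1) → ℤ × ℤ)) → Prop) :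
    Nat.card {ω : (i : Fin k) → (Fin (n i + 1) → ℤ × ℤ) //
      (∀ i, IsSAW (n i) (ω i)) ∧ Avoid ω ∧ E ω} = (H315.SAW.Fam n E).ncard := by
  rw [← Nat.card_coe_set_eq]
  refine Nat.card_congr (Equiv.subtypeEquivRight fun ω => ?_)
  exact and_congr (forall_congr' fun i => isSAW_iff (n i) (ω i)) Iff.rfl

theorem box_of {r : ℝ} {n : ℕ} {x : ℝ} (h : x ≤ (H315.SAW.t4 r n : ℝ) / (H122R3.SX.c n : ℝ) ^ 4) :
    x ≤ P (fun _ : Fin 4 => n) (InBox r n) := by
  refine h.trans ?_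
  unfold P
  rw [card_eq, Finset.prod_const, Finset.card_univ, Fintype.card_fin, c_eq']
  apply div_le_div_of_nonneg_right _ (by positivity)
  exact_mod_cast H315.SAW.t4_le r n

/-- **Theorem.** Let `μ = lim c_n^(1/n)`; for `0 < z < 1/μ` the correlation length
`ξ(z) = (lim_k - (1/k) log G_z((k, 0)))^(-1)` exists and is positive and finite.
(1) There is `K` such that for all `m ≥ 2`, with `ξ_m = ξ(e^(-1/m) / μ)`:
(a) there are `D ≤ K ξ_m (log m)^2` and `2 m ≤ M ≤ 300 m^2` such that for all `k`, all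
`N_1, …, N_k` and all self-avoiding walks `γ_i` with `N_i` steps from the origin which avoid each
other (apart from the origin), independent uniform self-avoiding walks with `M N_i` steps avoid each
other (apart from the origin) and follow the walks `D γ_i` with probability at least
`exp (- K ∑_i (N_i + 1) (log m)^3)`;
(b) for all `n` and all real `r` with `K ξ_m (log m)^2 ≤ r` and `K n (ξ_m (log m)^2)^2 ≤ m r^2`
four independent uniform `n`-step self-avoiding walks avoid each other (apart from the origin) and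
stay in `[-r, r]²` with probability at least `exp (- K (1 + n/m) (log m)^3)`.
(2) There is `K` such that for all `n ≥ 2` and `K √n (log n)^2 ≤ r ≤ n` the probability in (b) is
at least `exp (- K (n/r)^2 (log n)^7)`.
(3) For every `ε > 0` there is `a > 0` such that for all large `n` and all
`n^(1/2 + ε) ≤ r ≤ n^(1 - ε)` it is at least `exp (- (n/r)^2 n^(- a / log log n))`. -/
theorem result : ∃ (μ : ℝ) (ξ : ℝ → ℝ), 0 < μ ∧
    Tendsto (fun n : ℕ => (c n : ℝ) ^ (1 / (n : ℝ))) atTop (𝓝 μ) ∧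
    (∀ z : ℝ, 0 < z → z < 1 / μ → 0 < ξ z ∧
      Tendsto (fun k : ℕ => - Real.log (G z ((k : ℤ), 0)) / k) atTop (𝓝 (1 / ξ z))) ∧
    (∃ K : ℝ, 0 < K ∧ ∀ m : ℕ, 2 ≤ m → ∀ x : ℝ, x = ξ (Real.exp (-1 / m) / μ) →
      (∃ D M : ℕ, 1 ≤ D ∧ (D : ℝ) ≤ K * x * Real.log m ^ 2 ∧ 2 * m ≤ M ∧ M ≤ 300 * m ^ 2 ∧
        ∀ (k : ℕ) (N : Fin k → ℕ) (γ : (i : Fin k) → (Fin (N i + 1) → ℤ × ℤ)),
          (∀ i, IsSAW (N i) (γ i)) → Avoid γ →
          Real.exp (-(K * (∑ i, ((N i : ℝ) + 1)) * Real.log m ^ 3)) ≤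
            P (fun i => M * N i) (fun ω => ∀ i, Follows D M (N i) (γ i) (ω i))) ∧
      ∀ (n : ℕ) (r : ℝ), K * x * Real.log m ^ 2 ≤ r →
        K * n * (x * Real.log m ^ 2) ^ 2 ≤ m * r ^ 2 →
        Real.exp (-(K * (1 + n / m) * Real.log m ^ 3)) ≤ P (fun _ : Fin 4 => n) (InBox r n)) ∧
    (∃ K : ℝ, 0 < K ∧ ∀ n : ℕ, 2 ≤ n → ∀ r : ℝ, K * Real.sqrt n * Real.log n ^ 2 ≤ r → r ≤ n →
      Real.exp (-(K * (n / r) ^ 2 * Real.log n ^ 7)) ≤ P (fun _ : Fin 4 => n) (InBox r n)) ∧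
    ∀ ε : ℝ, 0 < ε → ∃ a : ℝ, 0 < a ∧ ∀ᶠ n : ℕ in atTop, ∀ r : ℝ,
      (n : ℝ) ^ (1 / 2 + ε) ≤ r → r ≤ (n : ℝ) ^ (1 - ε) →
      Real.exp (-((n / r) ^ 2 * (n : ℝ) ^ (-(a / Real.log (Real.log n))))) ≤
        P (fun _ : Fin 4 => n) (InBox r n) := by
  have hmu := H981.mu_pos
  obtain ⟨K1, hK1, h1⟩ := H315.SAW.main
  obtain ⟨K2, hK2, h2⟩ := H315.SAW.four_SBP
  obtain ⟨K5, hK5, h5⟩ := H315.SAW.ball_all_ofP H315.SAW.four_SBP
  refine ⟨H981.mu, Y981.L2.xi, hmu, ?_, ?_, ⟨K1 + K2, by positivity, fun m hm x hx => ?_⟩,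
    ⟨K5, hK5, ?_⟩, ?_⟩
  · have h := H981.tendsto_root
    refine h.congr ?_
    intro n
    rw [c_eq, TH795.EP.c_eq]
  · intro z hz hz1
    have he : 0 < -Real.log (z * H981.mu) := by
      have h1 : z * H981.mu < 1 := by rwa [lt_div_iff₀ hmu] at hz1
      have h2 := Real.log_neg (mul_pos hz hmu) h1
      linarith
    have hm := Y981.L2.mass_pos he
    constructor
    · unfold Y981.L2.xi
      positivity
    · have h := Y981.L2.G_tendsto hz hz1
      unfold Y981.L2.xi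
      rw [one_div_one_div]
      refine h.congr ?_
      intro k
      rw [G_eq]
  · have hms := H315.SAW.ms_pos hm
    have hxi : x = 1 / H315.SAW.ms m := by
      rw [hx]
      have e := Y981.L2.e_z (1 / (m : ℝ))
      have e2 : -(1 / (m : ℝ)) = -1 / m := by ring
      rw [e2] at e
      unfold Y981.L2.xi H315.SAW.ms
      rw [e]
    have hx0 : 0 < x := by rw [hxi]; positivity
    have e1 : x * Real.log m ^ 2 = Real.log m ^ 2 / H315.SAW.ms m := by rw [hxi]; ring
    have hl : 0 < Real.log (m : ℝ) := Real.log_pos (by exact_mod_cast (by omega : 1 < m))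
    obtain ⟨y, hy⟩ : ∃ y, y = x * Real.log m ^ 2 := ⟨_, rfl⟩
    have hy0 : 0 < y := by rw [hy]; positivity
    obtain ⟨⟨D, M, a1, a2, a3, a4, a5⟩, -⟩ := h1 m hm
    rw [← e1, ← hy] at a2
    refine ⟨⟨D, M, a1, ?_, a3, a4, fun k N γ hγ hav => ?_⟩, fun n r hr1 hr2 => ?_⟩
    · rw [mul_assoc, ← hy]
      refine a2.trans (mul_le_mul_of_nonneg_right ?_ hy0.le)
      linarith
    · obtain ⟨u, hu, hcard⟩ := H315.SAW.star_card (D := D) (M := M) a1 (by omega) N γ
        (fun i => (isSAW_iff (N i) (γ i)).1 (hγ i)) hav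
      unfold P
      rw [le_div_iff₀ (Finset.prod_pos fun i _ => c_pos _), card_eq]
      have b1 : ∀ i, Real.exp (-(K1 * ((N i : ℝ) + 1) * Real.log m ^ 3)) * (c (M * N i) : ℝ) ≤
          H315.SAW.fo D M (u i) := by
        intro i
        have := a5 (u i) (hu i).1
        rw [(hu i).2] at this
        rw [c_eq']
        exact this
      have b2 : ∏ i, (Real.exp (-(K1 * ((N i : ℝ) + 1) * Real.log m ^ 3)) * (c (M * N i) : ℝ)) ≤
          ∏ i, (H315.SAW.fo D M (u i) : ℝ) :=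
        Finset.prod_le_prod (fun i _ => by have := c_pos (M * N i); positivity) (fun i _ => b1 i)
      rw [Finset.prod_mul_distrib, ← Real.exp_sum] at b2
      have b3 : (∏ i, (H315.SAW.fo D M (u i) : ℝ)) ≤
          (H315.SAW.Fam (fun i => M * N i)
            (fun ω => ∀ i, H315.SAW.Follows D M (N i) (γ i) (ω i))).ncard := by
        exact_mod_cast hcard
      refine le_trans ?_ (b2.trans b3)
      apply mul_le_mul_of_nonneg_right _ (Finset.prod_nonneg fun i _ => Nat.cast_nonneg _)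
      apply Real.exp_le_exp.2
      have b4 : ∑ i, -(K1 * ((N i : ℝ) + 1) * Real.log m ^ 3) =
          -(K1 * (∑ i, ((N i : ℝ) + 1)) * Real.log m ^ 3) := by
        rw [Finset.sum_neg_distrib, Finset.mul_sum, Finset.sum_mul]
      rw [b4]
      have b5 : 0 ≤ ∑ i, ((N i : ℝ) + 1) := Finset.sum_nonneg fun i _ => by positivity
      have : 0 ≤ K2 * (∑ i, ((N i : ℝ) + 1)) * Real.log m ^ 3 := by positivity
      linarith
    · rw [mul_assoc, ← hy] at hr1
      rw [← hy] at hr2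
      have b1 := h2 m hm n r (by
        rw [← e1, ← hy]
        refine le_trans (mul_le_mul_of_nonneg_right ?_ hy0.le) hr1
        linarith) (by
        rw [← e1, ← hy]
        refine le_trans ?_ hr2
        gcongr
        linarith)
      refine le_trans (Real.exp_le_exp.2 ?_) (box_of b1)
      have : 0 ≤ K1 * (1 + (n : ℝ) / m) * Real.log m ^ 3 := by positivity
      linarith
  · intro n hn r hr1 hr2
    exact box_of (h5 n hn r hr1 hr2)
  · intro ε hε
    obtain ⟨a, ha, h6⟩ := H315.SAW.ball_small_ofP H315.SAW.four_SBP hε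
    refine ⟨a, ha, ?_⟩
    filter_upwards [h6] with n hn r hr1 hr2
    exact box_of (hn r hr1 hr2)

end Pool.Agent.Results.MP_8c6f77_pr.ConfinedStars
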