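import Mathlib

/-!
# The non-intersection exponent and the growth exponent: the two questions are equivalent

Let `L` be a vertex-transitive locally finite graph (for instance a regular planar lattice) and `a_n` the
number of `n`-step self-avoiding paths from a vertex `o`, `μ = lim a_n^(1/n)`.  The probability that two
independent uniform `n`-step self-avoiding paths do not meet is `a_{2n} / a_n^2` on a regular lattice.
From `a_n = μ^n n^(g + o(1))` it follows at once that `a_{2n} / a_n^2 = n^(- g + o(1))`.  Here the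
converse is shown: if `a_{2n} / a_n^2 = n^(- g + o(1))`, then `a_n = μ^n n^(g + o(1))`.  So on every such
graph the two statements, in particular the two predictions with `g = 11/32`, are equivalent.  With
one-sided versions: every polynomial lower (upper) bound of the non-intersection probability gives the
corresponding upper (lower) bound of `a_n / μ^n`.

Proof: `log (a_n / μ^n) = ∑_j 2^(-j-1) log (a_m^2 / a_{2m})`, `m = 2^j n`, because
`log (a_n / μ^n) = o(n)`, which follows from submultiplicativity.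
-/

set_option autoImplicit false

namespace Pool.Agent.Results.MP_8c6f77_pr.EquivalenceWithGrowth

open Filter Topology

/-- `w` is a self-avoiding path with `n` steps on the graph `L`, started at `v` -/
def IsSAP {V : Type} (L : SimpleGraph V) (n : ℕ) (v : V) (w : Fin (n + 1) → V) : Prop :=
  w 0 = v ∧ (∀ i : Fin n, L.Adj (w i.castSucc) (w i.succ)) ∧ Function.Injective w

/-- `a_n`: the number of self-avoiding paths with `n` steps started at `v` -/
noncomputable def count {V : Type} (L : SimpleGraph V) (v : V) (n : ℕ) : ℕ :=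
  Nat.card {w : Fin (n + 1) → V // IsSAP L n v w}

/-- `a_n / μ^n` -/
noncomputable def r (a : ℕ → ℕ) (μ : ℝ) (n : ℕ) : ℝ := (a n : ℝ) / μ ^ n

/-- `a_{2n} / a_n^2` -/
noncomputable def rt (a : ℕ → ℕ) (n : ℕ) : ℝ := (a (2 * n) : ℝ) / (a n : ℝ) ^ 2

/-! ### the recursion -/

theorem tele (f : ℕ → ℝ) (n k : ℕ) : f n = f (2 ^ k * n) / 2 ^ k +
    ∑ j ∈ Finset.range k, (2 * f (2 ^ j * n) - f (2 * (2 ^ j * n))) / 2 ^ (j + 1) := by
  induction k with
  | zero => simp
  | succ k ih =>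
    rw [Finset.sum_range_succ, ih]
    have e : 2 * (2 ^ k * n) = 2 ^ (k + 1) * n := by rw [pow_succ]; ring
    rw [e]
    have h2 : (2 : ℝ) ^ k ≠ 0 := by positivity
    field_simp
    ring

theorem geo (x y : ℝ) (k : ℕ) : ∑ j ∈ Finset.range k, (x + j * y) / 2 ^ (j + 1) =
    x * (1 - 1 / 2 ^ k) + y * (1 - (k + 1) / 2 ^ k) := by
  induction k with
  | zero => simp
  | succ k ih =>
    rw [Finset.sum_range_succ, ih]
    have h2 : (2 : ℝ) ^ k ≠ 0 := by positivity
    rw [pow_succ]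
    push_cast
    field_simp
    ring

theorem geo_lim (x y : ℝ) : Tendsto (fun k : ℕ => x * (1 - 1 / 2 ^ k) + y * (1 - ((k : ℝ) + 1) / 2 ^ k))
    atTop (𝓝 (x + y)) := by
  have h1 : Tendsto (fun k : ℕ => 1 / (2 : ℝ) ^ k) atTop (𝓝 0) := by
    have := tendsto_pow_atTop_nhds_zero_of_lt_one (r := (1 / 2 : ℝ)) (by norm_num) (by norm_num)
    refine this.congr (fun k => ?_)
    rw [one_div_pow]
  have h2 : Tendsto (fun k : ℕ => (k : ℝ) / (2 : ℝ) ^ k) atTop (𝓝 0) := by
    have := tendsto_self_mul_const_pow_of_lt_one (r := (1 / 2 : ℝ)) (by norm_num) (by norm_num)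
    refine this.congr (fun k => ?_)
    rw [one_div_pow]
    ring
  have h3 : Tendsto (fun k : ℕ => ((k : ℝ) + 1) / (2 : ℝ) ^ k) atTop (𝓝 0) := by
    have := h2.add h1
    rw [add_zero] at this
    refine this.congr (fun k => ?_)
    rw [← add_div]
  have h4 : Tendsto (fun k : ℕ => x * (1 - 1 / 2 ^ k) + y * (1 - ((k : ℝ) + 1) / 2 ^ k))
      atTop (𝓝 (x * (1 - 0) + y * (1 - 0))) :=
    ((tendsto_const_nhds.sub h1).const_mul x).add ((tendsto_const_nhds.sub h3).const_mul y)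
  simpa using h4

theorem sub_lim {f : ℕ → ℝ} (hf : Tendsto (fun n : ℕ => f n / n) atTop (𝓝 0)) {n : ℕ} (hn : 1 ≤ n) :
    Tendsto (fun k : ℕ => f (2 ^ k * n) / 2 ^ k) atTop (𝓝 0) := by
  have hn0 : (n : ℝ) ≠ 0 := by exact_mod_cast (by omega : n ≠ 0)
  have h1 : Tendsto (fun k : ℕ => 2 ^ k * n) atTop atTop := by
    apply tendsto_atTop_mono (f := fun k => k) _ tendsto_id
    intro k
    have h2 : k < 2 ^ k := Nat.lt_two_pow_self
    calc k ≤ 2 ^ k * 1 := by omega
      _ ≤ 2 ^ k * n := Nat.mul_le_mul_left _ hn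
  have h2 := (hf.comp h1).mul_const (n : ℝ)
  rw [zero_mul] at h2
  refine h2.congr (fun k => ?_)
  simp only [Function.comp]
  push_cast
  field_simp

/-- upper bound -/
theorem up {f : ℕ → ℝ} (hf : Tendsto (fun n : ℕ => f n / n) atTop (𝓝 0)) {a : ℝ} {N : ℕ}
    (h : ∀ n : ℕ, N ≤ n → 2 * f n - f (2 * n) ≤ a * Real.log n) {n : ℕ} (hn : N ≤ n) (hn1 : 1 ≤ n) :
    f n ≤ a * (Real.log n + Real.log 2) := by
  have hn0 : (0 : ℝ) < n := by exact_mod_cast hn1
  have h1 : ∀ k : ℕ, f n ≤ f (2 ^ k * n) / 2 ^ k +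
      a * (Real.log n * (1 - 1 / 2 ^ k) + Real.log 2 * (1 - ((k : ℝ) + 1) / 2 ^ k)) := by
    intro k
    rw [tele f n k, ← geo, Finset.mul_sum]
    apply add_le_add le_rfl
    apply Finset.sum_le_sum
    intro j _
    have h2 : N ≤ 2 ^ j * n := by
      have : 1 ≤ 2 ^ j := Nat.one_le_two_pow
      nlinarith
    have h3 := h (2 ^ j * n) h2
    have e2 : Real.log ((2 ^ j * n : ℕ) : ℝ) = Real.log n + j * Real.log 2 := by
      push_cast
      rw [Real.log_mul (by positivity) hn0.ne', Real.log_pow]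
      ring
    rw [e2] at h3
    rw [mul_div_assoc']
    exact div_le_div_of_nonneg_right h3 (by positivity)
  have h2 := (sub_lim hf hn1).add ((geo_lim (Real.log n) (Real.log 2)).const_mul a)
  rw [zero_add] at h2
  exact ge_of_tendsto' h2 h1

/-- lower bound -/
theorem low {f : ℕ → ℝ} (hf : Tendsto (fun n : ℕ => f n / n) atTop (𝓝 0)) {a : ℝ} {N : ℕ}
    (h : ∀ n : ℕ, N ≤ n → a * Real.log n ≤ 2 * f n - f (2 * n)) {n : ℕ} (hn : N ≤ n) (hn1 : 1 ≤ n) :
    a * (Real.log n + Real.log 2) ≤ f n := by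
  have hf' : Tendsto (fun n : ℕ => -f n / n) atTop (𝓝 0) := by
    have := hf.neg
    rw [neg_zero] at this
    refine this.congr (fun n => ?_)
    ring
  have h1 := up (f := fun n => -f n) hf' (a := -a) (N := N) (fun n hn => by
    have := h n hn
    linarith) hn hn1
  linarith

/-! ### the two sequences -/

theorem C_ev {a : ℕ → ℕ} {μ : ℝ} (hμ : 0 < μ)
    (hlim : Tendsto (fun n : ℕ => (a n : ℝ) ^ (1 / (n : ℝ))) atTop (𝓝 μ)) :
    ∀ᶠ n : ℕ in atTop, (0 : ℝ) < a n := by
  filter_upwards [hlim.eventually (lt_mem_nhds hμ), eventually_ge_atTop 1] with n h1 hn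
  rcases (Nat.cast_nonneg (a n) : (0 : ℝ) ≤ a n).eq_or_lt with h0 | h0
  · rw [← h0, Real.zero_rpow] at h1
    · exact absurd h1 (lt_irrefl _)
    · have : (0 : ℝ) < n := by exact_mod_cast hn
      positivity
  · exact h0

theorem f_lim {a : ℕ → ℕ} {μ : ℝ} (hμ : 0 < μ)
    (hlim : Tendsto (fun n : ℕ => (a n : ℝ) ^ (1 / (n : ℝ))) atTop (𝓝 μ)) :
    Tendsto (fun n : ℕ => Real.log (r a μ n) / n) atTop (𝓝 0) := by
  have h1 : Tendsto (fun n : ℕ => Real.log ((a n : ℝ) ^ (1 / (n : ℝ))) - Real.log μ) atTop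
      (𝓝 (Real.log μ - Real.log μ)) :=
    ((Real.continuousAt_log hμ.ne').tendsto.comp hlim).sub tendsto_const_nhds
  rw [sub_self] at h1
  refine h1.congr' ?_
  filter_upwards [C_ev hμ hlim, eventually_ge_atTop 1] with n h2 hn
  have hn0 : (n : ℝ) ≠ 0 := by exact_mod_cast (by omega : n ≠ 0)
  unfold r
  rw [Real.log_rpow h2, Real.log_div h2.ne' (pow_pos hμ n).ne', Real.log_pow]
  field_simp

theorem rt_ev {a : ℕ → ℕ} {μ : ℝ} (hμ : 0 < μ)
    (hlim : Tendsto (fun n : ℕ => (a n : ℝ) ^ (1 / (n : ℝ))) atTop (𝓝 μ)) :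
    ∀ᶠ n : ℕ in atTop, 0 < rt a n ∧ 0 < r a μ n ∧
      Real.log (rt a n) = Real.log (r a μ (2 * n)) - 2 * Real.log (r a μ n) := by
  obtain ⟨N, hN⟩ := eventually_atTop.1 (C_ev hμ hlim)
  filter_upwards [eventually_ge_atTop N] with n hn
  have h1 := hN n hn
  have h2 := hN (2 * n) (by omega)
  have h3 := pow_pos hμ n
  have h4 := pow_pos hμ (2 * n)
  unfold rt r
  refine ⟨by positivity, by positivity, ?_⟩
  rw [Real.log_div h2.ne' (by positivity), Real.log_div h2.ne' h4.ne', Real.log_div h1.ne' h3.ne',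
    Real.log_pow, Real.log_pow, Real.log_pow]
  push_cast
  ring

theorem rt_low {a : ℕ → ℕ} {μ : ℝ} (hμ : 0 < μ)
    (hlim : Tendsto (fun n : ℕ => (a n : ℝ) ^ (1 / (n : ℝ))) atTop (𝓝 μ)) {t : ℝ}
    (h : ∀ ε : ℝ, 0 < ε → ∀ᶠ n : ℕ in atTop, (n : ℝ) ^ (-t - ε) ≤ rt a n) :
    ∀ ε : ℝ, 0 < ε → ∀ᶠ n : ℕ in atTop, r a μ n ≤ (n : ℝ) ^ (t + ε) := by
  intro ε hε
  obtain ⟨N, hN⟩ := eventually_atTop.1 ((h (ε / 2) (by linarith)).and
    ((rt_ev hμ hlim).and (eventually_ge_atTop 1)))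
  have hlog : ∀ᶠ n : ℕ in atTop, |t + ε / 2| * Real.log 2 / (ε / 2) ≤ Real.log n :=
    (Real.tendsto_log_atTop.comp tendsto_natCast_atTop_atTop).eventually_ge_atTop _
  filter_upwards [eventually_ge_atTop N, hlog] with n hn hl
  obtain ⟨g1, ⟨g2, g3, g4⟩, g5⟩ := hN n hn
  have hn0 : (0 : ℝ) < n := by exact_mod_cast g5
  have h1 := up (f := fun n => Real.log (r a μ n)) (f_lim hμ hlim) (a := t + ε / 2) (N := N)
    (fun m hm => by
      obtain ⟨k1, ⟨k2, k3, k4⟩, k5⟩ := hN m hm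
      have hm0 : (0 : ℝ) < m := by exact_mod_cast k5
      have h2 := Real.log_le_log (by positivity) k1
      rw [Real.log_rpow hm0, k4] at h2
      linarith) hn g5
  rw [Real.rpow_def_of_pos hn0, ← Real.log_le_iff_le_exp g3]
  rw [div_le_iff₀ (by linarith)] at hl
  have h2 : (t + ε / 2) * Real.log 2 ≤ |t + ε / 2| * Real.log 2 :=
    mul_le_mul_of_nonneg_right (le_abs_self _) (Real.log_nonneg (by norm_num))
  have e : Real.log n * (t + ε) = (t + ε / 2) * Real.log n + Real.log n * (ε / 2) := by ring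
  rw [e]
  linarith

theorem rt_up {a : ℕ → ℕ} {μ : ℝ} (hμ : 0 < μ)
    (hlim : Tendsto (fun n : ℕ => (a n : ℝ) ^ (1 / (n : ℝ))) atTop (𝓝 μ)) {b : ℝ}
    (h : ∀ ε : ℝ, 0 < ε → ∀ᶠ n : ℕ in atTop, rt a n ≤ (n : ℝ) ^ (-b + ε)) :
    ∀ ε : ℝ, 0 < ε → ∀ᶠ n : ℕ in atTop, (n : ℝ) ^ (b - ε) ≤ r a μ n := by
  intro ε hε
  obtain ⟨N, hN⟩ := eventually_atTop.1 ((h (ε / 2) (by linarith)).and
    ((rt_ev hμ hlim).and (eventually_ge_atTop 1)))
  have hlog : ∀ᶠ n : ℕ in atTop, |b - ε / 2| * Real.log 2 / (ε / 2) ≤ Real.log n :=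
    (Real.tendsto_log_atTop.comp tendsto_natCast_atTop_atTop).eventually_ge_atTop _
  filter_upwards [eventually_ge_atTop N, hlog] with n hn hl
  obtain ⟨g1, ⟨g2, g3, g4⟩, g5⟩ := hN n hn
  have hn0 : (0 : ℝ) < n := by exact_mod_cast g5
  have h1 := low (f := fun n => Real.log (r a μ n)) (f_lim hμ hlim) (a := b - ε / 2) (N := N)
    (fun m hm => by
      obtain ⟨k1, ⟨k2, k3, k4⟩, k5⟩ := hN m hm
      have hm0 : (0 : ℝ) < m := by exact_mod_cast k5
      have h2 := Real.log_le_log k2 k1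
      rw [Real.log_rpow hm0, k4] at h2
      linarith) hn g5
  rw [Real.rpow_def_of_pos hn0, ← Real.le_log_iff_exp_le g3]
  rw [div_le_iff₀ (by linarith)] at hl
  have h2 : -(|b - ε / 2| * Real.log 2) ≤ (b - ε / 2) * Real.log 2 := by
    have := mul_le_mul_of_nonneg_right (neg_abs_le (b - ε / 2))
      (Real.log_nonneg (by norm_num : (1 : ℝ) ≤ 2))
    linarith
  have e : Real.log n * (b - ε) = (b - ε / 2) * Real.log n - Real.log n * (ε / 2) := by ring
  rw [e]
  linarith

/-- from `≈` to two-sided bounds and back -/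
theorem lim_iff {s : ℕ → ℝ} (hs : ∀ᶠ n : ℕ in atTop, 0 < s n) (g : ℝ) :
    Tendsto (fun n : ℕ => Real.log (s n) / Real.log n) atTop (𝓝 g) ↔
      (∀ ε : ℝ, 0 < ε → ∀ᶠ n : ℕ in atTop, (n : ℝ) ^ (g - ε) ≤ s n) ∧
      (∀ ε : ℝ, 0 < ε → ∀ᶠ n : ℕ in atTop, s n ≤ (n : ℝ) ^ (g + ε)) := by
  constructor
  · intro h
    constructor
    · intro ε hε
      filter_upwards [h.eventually (lt_mem_nhds (show g - ε < g by linarith)), hs,
        eventually_ge_atTop 2] with n h1 h2 hn
      have hn0 : (0 : ℝ) < n := by exact_mod_cast (by omega : 0 < n)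
      have hl : 0 < Real.log n := Real.log_pos (by exact_mod_cast (by omega : 1 < n))
      rw [Real.rpow_def_of_pos hn0, ← Real.le_log_iff_exp_le h2]
      rw [lt_div_iff₀ hl] at h1
      linarith
    · intro ε hε
      filter_upwards [h.eventually (gt_mem_nhds (show g < g + ε by linarith)), hs,
        eventually_ge_atTop 2] with n h1 h2 hn
      have hn0 : (0 : ℝ) < n := by exact_mod_cast (by omega : 0 < n)
      have hl : 0 < Real.log n := Real.log_pos (by exact_mod_cast (by omega : 1 < n))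
      rw [Real.rpow_def_of_pos hn0, ← Real.log_le_iff_le_exp h2]
      rw [div_lt_iff₀ hl] at h1
      linarith
  · rintro ⟨h1, h2⟩
    rw [Metric.tendsto_nhds]
    intro ε hε
    filter_upwards [h1 (ε / 2) (by linarith), h2 (ε / 2) (by linarith), hs,
      eventually_ge_atTop 2] with n a1 a2 a3 hn
    have hn0 : (0 : ℝ) < n := by exact_mod_cast (by omega : 0 < n)
    have hl : 0 < Real.log n := Real.log_pos (by exact_mod_cast (by omega : 1 < n))
    rw [Real.rpow_def_of_pos hn0, ← Real.le_log_iff_exp_le a3] at a1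
    rw [Real.rpow_def_of_pos hn0, ← Real.log_le_iff_le_exp a3] at a2
    rw [Real.dist_eq, abs_lt]
    have b1 : g - ε / 2 ≤ Real.log (s n) / Real.log n := by
      rw [le_div_iff₀ hl]; linarith
    have b2 : Real.log (s n) / Real.log n ≤ g + ε / 2 := by
      rw [div_le_iff₀ hl]; linarith
    constructor <;> linarith

/-- the equivalence for a sequence -/
theorem seq_iff {a : ℕ → ℕ} {μ : ℝ} (hμ : 0 < μ)
    (hlim : Tendsto (fun n : ℕ => (a n : ℝ) ^ (1 / (n : ℝ))) atTop (𝓝 μ)) (g : ℝ) :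
    Tendsto (fun n : ℕ => Real.log (r a μ n) / Real.log n) atTop (𝓝 g) ↔
      Tendsto (fun n : ℕ => Real.log (rt a n) / Real.log n) atTop (𝓝 (-g)) := by
  have hev := rt_ev hμ hlim
  have hr : ∀ᶠ n : ℕ in atTop, 0 < r a μ n := hev.mono (fun n h => h.2.1)
  have hrt : ∀ᶠ n : ℕ in atTop, 0 < rt a n := hev.mono (fun n h => h.1)
  refine ⟨fun h => ?_, fun h => ?_⟩
  · skip
    have h2 : Tendsto (fun n : ℕ => 2 * n) atTop atTop :=
      tendsto_atTop_mono (f := fun n => n) (fun n => by omega) tendsto_id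
    have h3 := h.comp h2
    have h4 : Tendsto (fun n : ℕ => Real.log (((2 * n : ℕ) : ℝ)) / Real.log n) atTop (𝓝 1) := by
      have h5 : Tendsto (fun n : ℕ => Real.log 2 / Real.log n) atTop (𝓝 0) :=
        (tendsto_const_nhds).div_atTop (Real.tendsto_log_atTop.comp tendsto_natCast_atTop_atTop)
      have h6 := h5.add_const 1
      rw [zero_add] at h6
      refine h6.congr' ?_
      filter_upwards [eventually_ge_atTop 2] with n hn
      have hn0 : (0 : ℝ) < n := by exact_mod_cast (by omega : 0 < n)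
      have hl : 0 < Real.log n := Real.log_pos (by exact_mod_cast (by omega : 1 < n))
      push_cast
      rw [Real.log_mul (by norm_num) hn0.ne', add_div, div_self hl.ne']
    have h5 := (h3.mul h4).sub (h.const_mul 2)
    have e : g * 1 - 2 * g = -g := by ring
    rw [e] at h5
    refine h5.congr' ?_
    filter_upwards [hev, eventually_ge_atTop 2] with n h6 hn
    have hn0 : (0 : ℝ) < n := by exact_mod_cast (by omega : 0 < n)
    have hl : 0 < Real.log n := Real.log_pos (by exact_mod_cast (by omega : 1 < n))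
    have hl2 : 0 < Real.log ((2 * n : ℕ) : ℝ) :=
      Real.log_pos (by exact_mod_cast (by omega : 1 < 2 * n))
    simp only [Function.comp]
    rw [h6.2.2, div_mul_div_cancel₀ hl2.ne', mul_div_assoc', ← sub_div]
  · rw [lim_iff hrt] at h
    rw [lim_iff hr]
    obtain ⟨h1, h2⟩ := h
    exact ⟨rt_up hμ hlim h2, rt_low hμ hlim h1⟩

/-! ### transitive graphs -/

theorem fin_sap {V : Type} (L : SimpleGraph V) (hfin : ∀ v : V, {y : V | L.Adj v y}.Finite)
    (n : ℕ) (v : V) : {w : Fin (n + 1) → V | IsSAP L n v w}.Finite := by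
  induction n with
  | zero =>
    apply Set.Finite.subset (Set.finite_singleton (fun _ => v))
    rintro w ⟨h1, -, -⟩
    rw [Set.mem_singleton_iff]
    funext i
    have : i = 0 := Fin.eq_zero i
    rw [this, h1]
  | succ n ih =>
    have h : {w : Fin (n + 1 + 1) → V | IsSAP L (n + 1) v w} ⊆
        ⋃ u ∈ {w : Fin (n + 1) → V | IsSAP L n v w}, ⋃ y ∈ {y : V | L.Adj (u (Fin.last n)) y},
          {Fin.snoc (α := fun _ => V) u y} := by
      rintro w ⟨h1, h2, h3⟩
      simp only [Set.mem_iUnion, Set.mem_singleton_iff]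
      refine ⟨Fin.init w, ⟨h1, fun i => ?_, fun i j hij => ?_⟩, w (Fin.last (n + 1)), ?_, ?_⟩
      · exact h2 i.castSucc
      · exact Fin.castSucc_injective _ (h3 hij)
      · exact h2 (Fin.last n)
      · exact (Fin.snoc_init_self w).symm
    apply Set.Finite.subset _ h
    apply Set.Finite.biUnion ih
    intro u _
    apply Set.Finite.biUnion (hfin _)
    intro y _
    exact Set.finite_singleton _

theorem submul {V : Type} (L : SimpleGraph V) (hfin : ∀ v : V, {y : V | L.Adj v y}.Finite)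
    (htr : ∀ x y : V, ∃ φ : L ≃g L, φ x = y) (o : V) (m n : ℕ) :
    count L o (m + n) ≤ count L o m * count L o n := by
  unfold count
  rw [← Nat.card_prod]
  have f1 : Finite {w : Fin (m + 1) → V // IsSAP L m o w} := (fin_sap L hfin m o).to_subtype
  have f2 : Finite {w : Fin (n + 1) → V // IsSAP L n o w} := (fin_sap L hfin n o).to_subtype
  choose φ hφ using htr
  apply Nat.card_le_card_of_injective
    (fun w : {w : Fin (m + n + 1) → V // IsSAP L (m + n) o w} =>
      ((⟨fun i => w.1 ⟨i.1, by omega⟩, by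
          obtain ⟨w, h1, h2, h3⟩ := w
          refine ⟨h1, fun i => h2 ⟨i.1, by omega⟩, fun i j hij => ?_⟩
          have := congrArg Fin.val (h3 hij)
          exact Fin.ext this⟩ : {w : Fin (m + 1) → V // IsSAP L m o w}),
        (⟨fun j => φ (w.1 ⟨m, by omega⟩) o (w.1 ⟨m + j.1, by omega⟩), by
          obtain ⟨w, h1, h2, h3⟩ := w
          refine ⟨hφ _ _, fun i => ?_, fun i j hij => ?_⟩
          · exact (φ _ _).map_adj_iff.2 (h2 ⟨m + i.1, by omega⟩)
          · have h4 := congrArg Fin.val (h3 ((φ _ _).injective hij))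
            simp only at h4
            exact Fin.ext (by omega)⟩ : {w : Fin (n + 1) → V // IsSAP L n o w})))
  intro w w' h
  rw [Prod.mk.injEq, Subtype.mk.injEq, Subtype.mk.injEq] at h
  obtain ⟨h1, h2⟩ := h
  apply Subtype.ext
  funext i
  rcases Nat.lt_or_ge i.1 (m + 1) with h3 | h3
  · exact congrFun h1 ⟨i.1, h3⟩
  · have h4 := congrFun h2 ⟨i.1 - m, by omega⟩
    have h5 := congrFun h1 ⟨m, by omega⟩
    simp only at h4 h5
    rw [h5] at h4
    have h7 := (φ _ _).injective h4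
    have h6 : (⟨m + (i.1 - m), by omega⟩ : Fin (m + n + 1)) = i := Fin.ext (by simp only; omega)
    rw [h6] at h7
    exact h7

theorem growth {V : Type} (L : SimpleGraph V) (hfin : ∀ v : V, {y : V | L.Adj v y}.Finite)
    (htr : ∀ x y : V, ∃ φ : L ≃g L, φ x = y) (o : V) (hpos : ∀ n : ℕ, 0 < count L o n) :
    ∃ μ : ℝ, 0 < μ ∧ Tendsto (fun n : ℕ => (count L o n : ℝ) ^ (1 / (n : ℝ))) atTop (𝓝 μ) ∧
      ∀ n : ℕ, μ ^ n ≤ count L o n := by
  have hp : ∀ n : ℕ, (0 : ℝ) < count L o n := fun n => by exact_mod_cast hpos n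
  have h1 : ∀ n : ℕ, (1 : ℝ) ≤ count L o n := fun n => by exact_mod_cast hpos n
  have hsub : Subadditive (fun n : ℕ => Real.log (count L o n)) := by
    intro m n
    simp only
    rw [← Real.log_mul (hp m).ne' (hp n).ne']
    apply Real.log_le_log (hp _)
    exact_mod_cast submul L hfin htr o m n
  have hbdd : BddBelow (Set.range (fun n : ℕ => Real.log (count L o n) / n)) := by
    refine ⟨0, ?_⟩
    rintro x ⟨n, rfl⟩
    exact div_nonneg (Real.log_nonneg (h1 n)) (Nat.cast_nonneg n)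
  have hlim := hsub.tendsto_lim hbdd
  refine ⟨Real.exp hsub.lim, Real.exp_pos _, ?_, ?_⟩
  · have h2 := (Real.continuous_exp.tendsto _).comp hlim
    refine h2.congr (fun n => ?_)
    simp only [Function.comp]
    rw [Real.rpow_def_of_pos (hp n)]
    congr 1
    ring
  · intro n
    rcases Nat.eq_zero_or_pos n with h0 | h0
    · rw [h0, pow_zero]
      exact h1 0
    · have hn0 : (0 : ℝ) < n := by exact_mod_cast h0
      have h2 := hsub.lim_le_div hbdd (by omega : n ≠ 0)
      rw [le_div_iff₀ hn0] at h2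
      rw [← Real.exp_nat_mul, ← Real.le_log_iff_exp_le (hp n)]
      linarith

/-- **Theorem.** Let `L` be a vertex-transitive locally finite graph with self-avoiding paths of every
length from the vertex `o`, and `a_n` their number.  Then `μ = lim a_n^(1/n) > 0` exists, `μ^n ≤ a_n`, and
(1) for every real `g`: `a_n = μ^n n^(g + o(1))` if and only if `a_{2n} / a_n^2 = n^(- g + o(1))`;
(2) if `a_{2n} / a_n^2 ≥ n^(-t-ε)` for large `n`, for every `ε > 0`, then `a_n / μ^n ≤ n^(t+ε)` for large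
`n`, for every `ε > 0`;
(3) if `a_{2n} / a_n^2 ≤ n^(-t+ε)` for large `n`, for every `ε > 0`, then `a_n / μ^n ≥ n^(t-ε)` for large
`n`, for every `ε > 0`. -/
theorem result {V : Type} (L : SimpleGraph V) (hfin : ∀ v : V, {y : V | L.Adj v y}.Finite)
    (htr : ∀ x y : V, ∃ φ : L ≃g L, φ x = y) (o : V) (hpos : ∀ n : ℕ, 0 < count L o n) :
    ∃ μ : ℝ, 0 < μ ∧ Tendsto (fun n : ℕ => (count L o n : ℝ) ^ (1 / (n : ℝ))) atTop (𝓝 μ) ∧
      (∀ n : ℕ, μ ^ n ≤ count L o n) ∧
      (∀ g : ℝ, Tendsto (fun n : ℕ => Real.log ((count L o n : ℝ) / μ ^ n) / Real.log n) atTop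
          (𝓝 g) ↔
        Tendsto (fun n : ℕ => Real.log ((count L o (2 * n) : ℝ) / (count L o n : ℝ) ^ 2) /
          Real.log n) atTop (𝓝 (-g))) ∧
      (∀ t : ℝ, (∀ ε : ℝ, 0 < ε → ∀ᶠ n : ℕ in atTop,
          (n : ℝ) ^ (-t - ε) ≤ (count L o (2 * n) : ℝ) / (count L o n : ℝ) ^ 2) →
        ∀ ε : ℝ, 0 < ε → ∀ᶠ n : ℕ in atTop, (count L o n : ℝ) / μ ^ n ≤ (n : ℝ) ^ (t + ε)) ∧
      (∀ t : ℝ, (∀ ε : ℝ, 0 < ε → ∀ᶠ n : ℕ in atTop,
          (count L o (2 * n) : ℝ) / (count L o n : ℝ) ^ 2 ≤ (n : ℝ) ^ (-t + ε)) →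
        ∀ ε : ℝ, 0 < ε → ∀ᶠ n : ℕ in atTop, (n : ℝ) ^ (t - ε) ≤ (count L o n : ℝ) / μ ^ n) := by
  obtain ⟨μ, hμ, hlim, hle⟩ := growth L hfin htr o hpos
  exact ⟨μ, hμ, hlim, hle, fun g => seq_iff hμ hlim g, fun t h => rt_low hμ hlim h,
    fun t h => rt_up hμ hlim h⟩

end Pool.Agent.Results.MP_8c6f77_pr.EquivalenceWithGrowth
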