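import Pool.Agent.V11237.SXT.Wedge

set_option autoImplicit false

/-!
# Three and four mutually avoiding self-avoiding walks on `ℤ²`

For `f ≤ 4` independent uniform self-avoiding walks on `ℤ²` from the origin, of ARBITRARY lengths
`n_1, ..., n_f ≥ 2`, the probability that they are pairwise disjoint apart from the common starting point
is at least `exp (- K ∑ (log n_i) ^ 3)`. For `f = 2` and equal lengths the probability is `a_{2n} / a_n ^ 2`; for
`f = 3, 4` there is no such formula: the product of the probability and of the numbers of walks counts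
the star polymers with three and four arms.
-/

namespace Pool.Agent.Results.MP_8c6f77_pr.FourWalks

/-- The `n`-step self-avoiding walks on `ℤ²` from the origin. -/
def walks (n : ℕ) : Set (Fin (n + 1) → ℤ × ℤ) :=
  {w | w 0 = 0 ∧ Function.Injective w ∧ ∀ i : Fin n,
    |(w i.castSucc).1 - (w i.succ).1| + |(w i.castSucc).2 - (w i.succ).2| = 1}

/-- The probability that independent uniform self-avoiding walks of the lengths `n 0, ..., n (f - 1)`
from the origin are pairwise disjoint apart from the starting point. -/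
noncomputable def prob {f : ℕ} (n : Fin f → ℕ) : ℝ :=
  ({w : (i : Fin f) → Fin (n i + 1) → ℤ × ℤ | (∀ i, w i ∈ walks (n i)) ∧
    ∀ i j, i ≠ j → ∀ a b, a ≠ 0 → w i a ≠ w j b}.ncard : ℝ) / ∏ i, ((walks (n i)).ncard : ℝ)

/-- the rotations by multiples of a right angle -/
def rot (i : ℕ) (v : ℤ × ℤ) : ℤ × ℤ :=
  if i = 0 then v else if i = 1 then (-v.2, v.1) else if i = 2 then (-v.1, -v.2) else (v.2, -v.1)

lemma rot_inj (i : ℕ) : Function.Injective (rot i) := by
  intro v w h
  unfold rot at h
  split_ifs at h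
  · exact h
  all_goals
    simp only [Prod.mk.injEq] at h
    ext <;> omega

lemma rot_zero (i : ℕ) : rot i 0 = 0 := by
  unfold rot
  split_ifs <;> simp

lemma rot_walk (i n : ℕ) {w : Fin (n + 1) → ℤ × ℤ} (hw : w ∈ walks n) : rot i ∘ w ∈ walks n := by
  obtain ⟨h1, h2, h3⟩ := hw
  refine ⟨?_, (rot_inj i).comp h2, ?_⟩
  · change rot i (w 0) = 0
    rw [h1, rot_zero]
  · intro j
    have := h3 j
    change |(rot i (w j.castSucc)).1 - (rot i (w j.succ)).1| +
      |(rot i (w j.castSucc)).2 - (rot i (w j.succ)).2| = 1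
    unfold rot
    split_ifs
    · exact this
    · simp only
      rw [← this, add_comm, show -(w j.castSucc).2 - -(w j.succ).2 =
        -((w j.castSucc).2 - (w j.succ).2) by ring, abs_neg]
    · simp only
      rw [← this, show -(w j.castSucc).2 - -(w j.succ).2 =
        -((w j.castSucc).2 - (w j.succ).2) by ring, abs_neg, show -(w j.castSucc).1 - -(w j.succ).1 =
        -((w j.castSucc).1 - (w j.succ).1) by ring, abs_neg]
    · simp only
      rw [← this, add_comm, show -(w j.castSucc).1 - -(w j.succ).1 =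
        -((w j.castSucc).1 - (w j.succ).1) by ring, abs_neg]

/-- the wedge -/
def W (v : ℤ × ℤ) : Prop := |(v.1 : ℝ)| ≤ 1 / 2 * v.2

lemma W_int {v : ℤ × ℤ} (h : W v) : 2 * |v.1| ≤ v.2 := by
  unfold W at h
  have h1 : (2 : ℝ) * |(v.1 : ℝ)| ≤ v.2 := by linarith
  exact_mod_cast h1

/-- the rotated wedges meet in the origin only -/
lemma W_disj {i j : ℕ} (hi : i < 4) (hj : j < 4) (hij : i ≠ j) {v w : ℤ × ℤ} (hv : W v) (hw : W w)
    (h : rot i v = rot j w) : v = 0 := by
  have h1 := W_int hv
  have h2 := W_int hw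
  have a1 := abs_nonneg v.1
  have a2 := abs_nonneg w.1
  have b1 := le_abs_self v.1
  have b2 := le_abs_self w.1
  have b3 := neg_abs_le v.1
  have b4 := neg_abs_le w.1
  have key : v.1 = 0 ∧ v.2 = 0 := by
    rw [Prod.ext_iff] at h
    unfold rot at h
    interval_cases i <;> interval_cases j <;> simp at hij h <;> (constructor <;> omega)
  exact Prod.ext key.1 key.2

lemma ncard_pi {f : ℕ} {α : Fin f → Type} (s : (i : Fin f) → Set (α i)) (hs : ∀ i, (s i).Finite) :
    (Set.pi Set.univ s).ncard = ∏ i, (s i).ncard := by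
  classical
  have h : Set.pi Set.univ s = ((Fintype.piFinset (fun i => (hs i).toFinset) : Finset _) : Set _) := by
    ext w
    simp
  rw [h, Set.ncard_coe_finset, Fintype.card_piFinset]
  apply Finset.prod_congr rfl
  intro i _
  rw [Set.ncard_eq_toFinset_card _ (hs i)]

/-- **Theorem.** There is `K` such that for all `f ≤ 4` and all `n_1, ..., n_f ≥ 2` independent uniform
self-avoiding walks on `ℤ²` of the lengths `n_1, ..., n_f` from the origin are pairwise disjoint apart from
the starting point with probability at least `exp (- K ∑ (log n_i) ^ 3)`. -/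
theorem result : ∃ K : ℝ, ∀ f : ℕ, f ≤ 4 → ∀ n : Fin f → ℕ, (∀ i, 2 ≤ n i) →
    Real.exp (-(K * ∑ i, Real.log (n i) ^ 3)) ≤ prob n := by
  obtain ⟨K, hK⟩ := Pool.Agent.V11237.SXT.wedge_final (1 / 2) (by norm_num)
  refine ⟨K, ?_⟩
  intro f hf n hn
  have hwk : ∀ m, walks m = Pool.Agent.H122R3.SX.walks m := fun m => rfl
  have hfin : ∀ m, (walks m).Finite := fun m => Pool.Agent.H122R3.SX.walks_finite m
  have hfinS : ∀ i, {g | g ∈ walks (n i) ∧ ∀ a, W (g a)}.Finite :=
    fun i => (hfin (n i)).subset fun g hg => hg.1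
  unfold prob
  have h1 : ∏ i, Real.exp (-(K * Real.log (n i) ^ 3)) ≤
      ∏ i, (({g | g ∈ walks (n i) ∧ ∀ a, W (g a)}.ncard : ℝ) / ((walks (n i)).ncard : ℝ)) := by
    apply Finset.prod_le_prod (fun i _ => (Real.exp_pos _).le)
    intro i _
    exact hK (n i) (hn i)
  have h2 : ∏ i, Real.exp (-(K * Real.log (n i) ^ 3)) = Real.exp (-(K * ∑ i, Real.log (n i) ^ 3)) := by
    rw [← Real.exp_sum, Finset.sum_neg_distrib, Finset.mul_sum]
  rw [← h2]
  refine h1.trans ?_
  rw [Finset.prod_div_distrib]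
  have hpos : 0 ≤ ∏ i, ((walks (n i)).ncard : ℝ) := Finset.prod_nonneg fun i _ => Nat.cast_nonneg _
  apply div_le_div_of_nonneg_right _ hpos
  have h3 : (∏ i, {g | g ∈ walks (n i) ∧ ∀ a, W (g a)}.ncard) ≤
      {w : (i : Fin f) → Fin (n i + 1) → ℤ × ℤ | (∀ i, w i ∈ walks (n i)) ∧
        ∀ i j, i ≠ j → ∀ a b, a ≠ 0 → w i a ≠ w j b}.ncard := by
    rw [← ncard_pi _ hfinS]
    have hfin2 : {w : (i : Fin f) → Fin (n i + 1) → ℤ × ℤ | (∀ i, w i ∈ walks (n i)) ∧
        ∀ i j, i ≠ j → ∀ a b, a ≠ 0 → w i a ≠ w j b}.Finite := by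
      apply (Set.Finite.pi (fun i => hfin (n i))).subset
      intro w hw i _
      exact hw.1 i
    apply Set.ncard_le_ncard_of_injOn (fun w => fun i : Fin f => rot (i : ℕ) ∘ w i) _ _ hfin2
    · intro w hw
      refine ⟨fun i => rot_walk _ _ (hw i (Set.mem_univ i)).1, ?_⟩
      intro i j hij a b ha h
      have h4 := W_disj (i := (i : ℕ)) (j := (j : ℕ)) (by omega) (by omega)
        (fun h => hij (Fin.ext h)) ((hw i (Set.mem_univ i)).2 a) ((hw j (Set.mem_univ j)).2 b) h
      have h5 := (hw i (Set.mem_univ i)).1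
      rw [← h5.1] at h4
      exact ha (h5.2.1 h4)
    · intro w _ w' _ h
      funext i a
      have h6 := congrFun (congrFun h i) a
      exact rot_inj _ h6
  exact_mod_cast h3

end Pool.Agent.Results.MP_8c6f77_pr.FourWalks
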