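import Pool.Agent.V11252.SAW.HalfP

/-!
# Non-intersection of two self-avoiding walks under forces

Two independent self-avoiding walks `w`, `w'` on `ℤ²` from the origin, with `n` and `m` steps, are
pulled at their end points by forces `f` and `f'`: their laws are weighted by `exp (f · w(n))` and
`exp (f' · w'(m))`.

(1) Under opposite forces, `f' = -f`, the probability that the walks are disjoint is at least
`exp (- K ((log n)^2 + (log m)^2))`, with one constant for all forces and all lengths: the forces may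
be zero (the known case), small, so that the walks are stretched only at large scales, or large.
(2) Whenever `f` points into the upper and `f'` into the lower closed half plane, it is at least
`exp (- K ((log n)^2 + (log m)^2) - min (|f₁|, |f'₁|))`.  This covers two walks which are pulled by the
same horizontal force `(g, 0)` in the same direction, with the bound `exp (- K (log n)^2 - g)` for
`n = m`.
-/

set_option autoImplicit false

namespace Pool.Agent.Results.MP_8c6f77_pr.PulledApart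

open Pool.Agent

/-- `w` is an `n`-step self-avoiding path on `ℤ²` from the origin. -/
def IsSAW (n : ℕ) (w : Fin (n + 1) → ℤ × ℤ) : Prop :=
  w 0 = (0, 0) ∧
  (∀ i : Fin n, |(w i.succ).1 - (w i.castSucc).1| + |(w i.succ).2 - (w i.castSucc).2| = 1) ∧
  Function.Injective w

/-- `w{1,…,n} ∩ w'{0,…,m} = ∅` -/
def Disj {n m : ℕ} (w : Fin (n + 1) → ℤ × ℤ) (w' : Fin (m + 1) → ℤ × ℤ) : Prop :=
  ∀ i j, i ≠ 0 → w i ≠ w' j

/-- the weight `exp (f · w(n))` -/
noncomputable def wt {n : ℕ} (f : ℝ × ℝ) (w : Fin (n + 1) → ℤ × ℤ) : ℝ :=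
  Real.exp (f.1 * (w (Fin.last n)).1 + f.2 * (w (Fin.last n)).2)

/-- the partition function of the `n`-step walks pulled by the force `f` -/
noncomputable def Z (n : ℕ) (f : ℝ × ℝ) : ℝ :=
  ∑ᶠ w ∈ {w : Fin (n + 1) → ℤ × ℤ | IsSAW n w}, wt f w

/-- the partition function of the disjoint pairs of walks with `n` and `m` steps pulled by the forces
`f` and `f'` -/
noncomputable def ZD (n m : ℕ) (f f' : ℝ × ℝ) : ℝ :=
  ∑ᶠ q ∈ {q : (Fin (n + 1) → ℤ × ℤ) × (Fin (m + 1) → ℤ × ℤ) |
    IsSAW n q.1 ∧ IsSAW m q.2 ∧ Disj q.1 q.2}, wt f q.1 * wt f' q.2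

/-- the probability that the two independent pulled walks are disjoint -/
noncomputable def P (n m : ℕ) (f f' : ℝ × ℝ) : ℝ := ZD n m f f' / (Z n f * Z m f')

theorem Z_eq (n : ℕ) (f : ℝ × ℝ) : Z n f = Y981.L2.Z f n := by
  unfold Z
  have e := TH795.EP2.image_eq n (fun _ => True) (fun _ => True) (fun _ _ => Iff.rfl)
  simp only [and_true] at e
  have e2 : {ω : Fin (n + 1) → ℤ × ℤ | IsSAW n ω} =
      TH795.EP2.ew n '' (TH795.EP.fs H981.Saw n : Set (List H981.St)) := e
  rw [e2, finsum_mem_image, finsum_mem_coe_finset]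
  · apply Finset.sum_congr rfl
    intro w hw
    rw [TH795.EP.mem_fs] at hw
    unfold wt
    rw [TH795.EP2.ew_last n hw.2]
  · intro w hw w' hw' he
    rw [Finset.mem_coe, TH795.EP.mem_fs] at hw hw'
    exact TH795.EP2.ew_injOn n hw.2 hw'.2 he

theorem saw_finite (n : ℕ) : {w : Fin (n + 1) → ℤ × ℤ | IsSAW n w}.Finite := by
  have e := TH795.EP2.image_eq n (fun _ => True) (fun _ => True) (fun _ _ => Iff.rfl)
  simp only [and_true] at e
  have e2 : {ω : Fin (n + 1) → ℤ × ℤ | IsSAW n ω} =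
      TH795.EP2.ew n '' (TH795.EP.fs H981.Saw n : Set (List H981.St)) := e
  rw [e2]
  exact (Finset.finite_toSet _).image _

theorem pairs_finite (n m : ℕ) : {q : (Fin (n + 1) → ℤ × ℤ) × (Fin (m + 1) → ℤ × ℤ) |
    IsSAW n q.1 ∧ IsSAW m q.2 ∧ Disj q.1 q.2}.Finite :=
  ((saw_finite n).prod (saw_finite m)).subset (fun _ hq => ⟨hq.1, hq.2.1⟩)

/-- lower bound by an injection -/
theorem le_ZD {ι : Type*} (n m : ℕ) (f f' : ℝ × ℝ) (s : Finset ι)
    (φ : ι → (Fin (n + 1) → ℤ × ℤ) × (Fin (m + 1) → ℤ × ℤ))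
    (hφ : ∀ i ∈ s, IsSAW n (φ i).1 ∧ IsSAW m (φ i).2 ∧ Disj (φ i).1 (φ i).2)
    (hinj : Set.InjOn φ (s : Set ι)) :
    ∑ i ∈ s, wt f (φ i).1 * wt f' (φ i).2 ≤ ZD n m f f' := by
  classical
  unfold ZD
  rw [finsum_mem_eq_finite_toFinset_sum _ (pairs_finite n m),
    ← Finset.sum_image (s := s) (g := φ) (f := fun q => wt f q.1 * wt f' q.2) hinj]
  apply Finset.sum_le_sum_of_subset_of_nonneg
  · intro q hq
    rw [Finset.mem_image] at hq
    obtain ⟨i, hi, rfl⟩ := hq
    rw [Set.Finite.mem_toFinset]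
    exact hφ i hi
  · intro q _ _
    unfold wt
    positivity

/-! ### opposite forces -/

/-- cut a walk at time `m`; the first part is traversed backwards -/
def spl (n m : ℕ) (u : Fin (n + m + 1) → ℤ × ℤ) :
    (Fin (n + 1) → ℤ × ℤ) × (Fin (m + 1) → ℤ × ℤ) :=
  (fun k => u ⟨m + k.1, by omega⟩ - u ⟨m, by omega⟩,
    fun k => u ⟨m - k.1, by omega⟩ - u ⟨m, by omega⟩)

theorem split_le (n m : ℕ) (f : ℝ × ℝ) : Z (n + m) f ≤ ZD n m f (-f) := by
  classical
  unfold Z
  rw [finsum_mem_eq_finite_toFinset_sum _ (saw_finite (n + m))]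
  refine le_trans (le_of_eq ?_) (le_ZD n m f (-f) (saw_finite (n + m)).toFinset (spl n m) ?_ ?_)
  · apply Finset.sum_congr rfl
    intro u hu
    rw [Set.Finite.mem_toFinset] at hu
    have h0 : u ⟨0, by omega⟩ = (0, 0) := hu.1
    unfold wt spl
    simp only [Fin.val_last]
    have e1 : (⟨m + n, by omega⟩ : Fin (n + m + 1)) = Fin.last (n + m) := by
      apply Fin.ext
      simp only [Fin.val_last]
      omega
    have e2 : (⟨m - m, by omega⟩ : Fin (n + m + 1)) = ⟨0, by omega⟩ := by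
      apply Fin.ext
      simp
    rw [e1, e2, h0, ← Real.exp_add]
    congr 1
    simp only [Prod.fst_sub, Prod.snd_sub, Prod.fst_neg, Prod.snd_neg, Int.cast_sub, Int.cast_zero]
    ring
  · intro u hu
    rw [Set.Finite.mem_toFinset] at hu
    obtain ⟨h0, h1, h2⟩ := hu
    have hstep : ∀ j : ℕ, ∀ hj : j + 1 < n + m + 1,
        |(u ⟨j + 1, hj⟩).1 - (u ⟨j, by omega⟩).1| + |(u ⟨j + 1, hj⟩).2 - (u ⟨j, by omega⟩).2| = 1 :=
      fun j hj => h1 ⟨j, by omega⟩
    have hinj : ∀ i j : ℕ, ∀ hi : i < n + m + 1, ∀ hj : j < n + m + 1,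
        u ⟨i, hi⟩ = u ⟨j, hj⟩ → i = j := by
      intro i j hi hj he
      have := h2 he
      exact congrArg Fin.val this
    unfold spl
    refine ⟨⟨?_, ?_, ?_⟩, ⟨?_, ?_, ?_⟩, ?_⟩
    · simp only [Fin.val_zero, add_zero, sub_self]
      rfl
    · intro i
      have h3 := hstep (m + i.1) (by omega)
      simp only [Fin.val_succ, Fin.val_castSucc, Prod.fst_sub, Prod.snd_sub, sub_sub_sub_cancel_right]
      exact h3
    · intro i j he
      simp only [sub_left_inj] at he
      have := hinj _ _ _ _ he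
      apply Fin.ext
      omega
    · simp only [Fin.val_zero, Nat.sub_zero, sub_self]
      rfl
    · intro i
      have hi := i.2
      have h3 := hstep (m - (i.1 + 1)) (by omega)
      have e : (⟨m - (i.1 + 1) + 1, by omega⟩ : Fin (n + m + 1)) = ⟨m - i.1, by omega⟩ := by
        apply Fin.ext
        simp only
        omega
      rw [e] at h3
      simp only [Fin.val_succ, Fin.val_castSucc, Prod.fst_sub, Prod.snd_sub, sub_sub_sub_cancel_right]
      rw [abs_sub_comm, abs_sub_comm (u ⟨m - (i.1 + 1), _⟩).2]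
      exact h3
    · intro i j he
      simp only [sub_left_inj] at he
      have h3 := hinj _ _ _ _ he
      have := i.2
      have := j.2
      apply Fin.ext
      omega
    · intro i j hi he
      simp only [sub_left_inj] at he
      have h3 := hinj _ _ _ _ he
      apply hi
      apply Fin.ext
      rw [Fin.val_zero]
      omega
  · intro u hu v hv he
    rw [Finset.mem_coe, Set.Finite.mem_toFinset] at hu hv
    unfold spl at he
    have hu0 : u ⟨0, by omega⟩ = (0, 0) := hu.1
    have hv0 : v ⟨0, by omega⟩ = (0, 0) := hv.1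
    have he1 := congrArg Prod.fst he
    have he2 := congrArg Prod.snd he
    simp only at he1 he2
    have hm := congrFun he2 (Fin.last m)
    simp only [Fin.val_last] at hm
    have e2 : (⟨m - m, by omega⟩ : Fin (n + m + 1)) = ⟨0, by omega⟩ := by
      apply Fin.ext
      simp
    rw [e2, hu0, hv0] at hm
    have hm' : u ⟨m, by omega⟩ = v ⟨m, by omega⟩ := by
      have := sub_right_injective hm
      exact this
    funext j
    rcases Nat.lt_or_ge j.1 m with h1 | h1
    · have h2 := congrFun he2 ⟨m - j.1, by omega⟩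
      simp only at h2
      have e3 : (⟨m - (m - j.1), by omega⟩ : Fin (n + m + 1)) = j := by
        apply Fin.ext
        simp only
        omega
      rw [e3, hm'] at h2
      exact sub_left_injective h2
    · have hj := j.2
      have h2 := congrFun he1 ⟨j.1 - m, by omega⟩
      simp only at h2
      have e3 : (⟨m + (j.1 - m), by omega⟩ : Fin (n + m + 1)) = j := by
        apply Fin.ext
        simp only
        omega
      rw [e3, hm'] at h2
      exact sub_left_injective h2

/-! ### forces into complementary half planes -/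

open H981 TH795.EP TH795.EP2 TH795.SE2 in
/-- the partition function of the words in the lower half plane -/
theorem ZL_eq (f : ℝ × ℝ) (k : ℕ) :
    ∑ v ∈ fs (fun v => Saw v ∧ Y981.L2.Lo v) k, Real.exp (f.1 * dx v + f.2 * dy v) =
      V11252.SAW.ZH (f.1, -f.2) k := by
  unfold V11252.SAW.ZH
  apply Finset.sum_bij' (fun v _ => ng v) (fun v _ => ng v)
  · intro v hv
    rw [mem_fs] at hv ⊢
    refine ⟨⟨hv.1.1.ng, fun k => ?_⟩, by rw [length_ng, hv.2]⟩
    rw [Y981.L2.path_ng_snd]
    have := hv.1.2 k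
    omega
  · intro v hv
    rw [mem_fs] at hv ⊢
    refine ⟨⟨hv.1.1.ng, fun k => ?_⟩, by rw [length_ng, hv.2]⟩
    rw [Y981.L2.path_ng_snd]
    have := hv.1.2 k
    omega
  · intro v _
    exact ng_ng v
  · intro v _
    exact ng_ng v
  · intro v _
    rw [dx_ng, dy_ng]
    congr 1
    push_cast
    ring

open H981 TH795.EP TH795.EP2 TH795.SE2 in
theorem half_le (n m : ℕ) (f f' : ℝ × ℝ) :
    V11252.SAW.ZH f n * (Real.exp (-f'.2) * V11252.SAW.ZH (f'.1, -f'.2) m) ≤
      ZD n (m + 1) f f' := by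
  rw [← ZL_eq]
  unfold V11252.SAW.ZH
  rw [Finset.mul_sum, Finset.sum_mul_sum, ← Finset.sum_product']
  refine le_trans (le_of_eq ?_) (le_ZD n (m + 1) f f'
    (fs (fun w => Saw w ∧ Y981.L2.Hi w) n ×ˢ fs (fun v => Saw v ∧ Y981.L2.Lo v) m)
    (fun p => (ew n p.1, ew (m + 1) (St.S :: p.2))) ?_ ?_)
  · apply Finset.sum_congr rfl
    rintro ⟨w, v⟩ hp
    rw [Finset.mem_product, mem_fs, mem_fs] at hp
    simp only at hp
    unfold wt
    simp only
    rw [ew_last n hp.1.2, ew_last (m + 1) (by rw [List.length_cons, hp.2.2]), ← Real.exp_add]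
    congr 2
    simp only [dx_cons, dy_cons, St.x_S, St.y_S]
    push_cast
    ring
  · rintro ⟨w, v⟩ hp
    rw [Finset.mem_product, mem_fs, mem_fs] at hp
    simp only at hp
    obtain ⟨⟨⟨h1, h2⟩, h3⟩, ⟨h4, h5⟩, h6⟩ := hp
    refine ⟨ew_saw n h3 h1, ew_saw (m + 1) (by rw [List.length_cons, h6])
      (Y981.L2.saw_S_cons h4 h5), ?_⟩
    intro i j hi he
    have he' : path w i.1 = path (St.S :: v) j.1 := he
    have hi0 : 0 < i.1 := by
      rcases Nat.eq_zero_or_pos i.1 with h | h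
      · exact absurd (Fin.ext h) hi
      · exact h
    rcases Nat.eq_zero_or_pos j.1 with hj | hj
    · rw [hj, Y981.L2.path_zero'] at he'
      have h7 := saw_iff'.1 h1 0 i.1 hi0 (by rw [h3]; have := i.2; omega)
      rw [Y981.L2.path_zero'] at h7
      exact h7 he'.symm
    · obtain ⟨l, hl⟩ : ∃ l, j.1 = l + 1 := ⟨j.1 - 1, by omega⟩
      rw [hl, Y981.L2.path_snd_S] at he'
      have h7 := h2 i.1
      have h8 := h5 l
      rw [he'] at h7
      simp only at h7
      omega
  · rintro ⟨w, v⟩ hp ⟨w', v'⟩ hp' he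
    rw [Finset.mem_coe, Finset.mem_product, mem_fs, mem_fs] at hp hp'
    simp only at hp hp' he
    have h1 := ew_injOn n hp.1.2 hp'.1.2 (Prod.mk.inj he).1
    have h2 := ew_injOn (m + 1) (w := St.S :: v) (w' := St.S :: v')
      (by rw [List.length_cons, hp.2.2]) (by rw [List.length_cons, hp'.2.2]) (Prod.mk.inj he).2
    rw [List.cons.injEq] at h2
    rw [h1, h2.2]

open H981 TH795.EP TH795.EP2 TH795.SE2 in
theorem half_le' (n m : ℕ) (f f' : ℝ × ℝ) :
    Real.exp f.2 * (V11252.SAW.ZH f n * V11252.SAW.ZH (f'.1, -f'.2) m) ≤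
      ZD (n + 1) m f f' := by
  have hN : ∀ v : List St, Saw v → Y981.L2.Hi v → Saw (St.N :: v) := by
    intro v h1 h2
    have h3 : Y981.L2.Lo (ng v) := by
      intro k
      rw [Y981.L2.path_ng_snd]
      have := h2 k
      omega
    have h4 := (Y981.L2.saw_S_cons h1.ng h3).ng
    have e : ng (St.S :: ng v) = St.N :: v := by
      rw [ng_cons, ng_ng]
      rfl
    rwa [e] at h4
  have hP : ∀ (v : List St) (k : ℕ), path (St.N :: v) (k + 1) = ((path v k).1, (path v k).2 + 1) := by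
    intro v k
    rw [path_cons_succ, St.x_N, St.y_N]
    ext
    · simp
    · simp only; ring
  rw [← ZL_eq]
  unfold V11252.SAW.ZH
  rw [Finset.sum_mul_sum, ← Finset.sum_product', Finset.mul_sum]
  refine le_trans (le_of_eq ?_) (le_ZD (n + 1) m f f'
    (fs (fun w => Saw w ∧ Y981.L2.Hi w) n ×ˢ fs (fun v => Saw v ∧ Y981.L2.Lo v) m)
    (fun p => (ew (n + 1) (St.N :: p.1), ew m p.2)) ?_ ?_)
  · apply Finset.sum_congr rfl
    rintro ⟨w, v⟩ hp
    rw [Finset.mem_product, mem_fs, mem_fs] at hp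
    simp only at hp
    unfold wt
    simp only
    rw [ew_last m hp.2.2, ew_last (n + 1) (by rw [List.length_cons, hp.1.2]), ← Real.exp_add,
      ← Real.exp_add, ← Real.exp_add]
    congr 1
    simp only [dx_cons, dy_cons, St.x_N, St.y_N]
    push_cast
    ring
  · rintro ⟨w, v⟩ hp
    rw [Finset.mem_product, mem_fs, mem_fs] at hp
    simp only at hp
    obtain ⟨⟨⟨h1, h2⟩, h3⟩, ⟨h4, h5⟩, h6⟩ := hp
    refine ⟨ew_saw (n + 1) (by rw [List.length_cons, h3]) (hN w h1 h2), ew_saw m h6 h4, ?_⟩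
    intro i j hi he
    have he' : path (St.N :: w) i.1 = path v j.1 := he
    obtain ⟨l, hl⟩ : ∃ l, i.1 = l + 1 := by
      rcases Nat.eq_zero_or_pos i.1 with h | h
      · exact absurd (Fin.ext h) hi
      · exact ⟨i.1 - 1, by omega⟩
    rw [hl, hP] at he'
    have h7 := h5 j.1
    have h8 := h2 l
    rw [← he'] at h7
    simp only at h7
    omega
  · rintro ⟨w, v⟩ hp ⟨w', v'⟩ hp' he
    rw [Finset.mem_coe, Finset.mem_product, mem_fs, mem_fs] at hp hp'
    simp only at hp hp' he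
    have h1 := ew_injOn m hp.2.2 hp'.2.2 (Prod.mk.inj he).2
    have h2 := ew_injOn (n + 1) (w := St.N :: w) (w' := St.N :: w')
      (by rw [List.length_cons, hp.1.2]) (by rw [List.length_cons, hp'.1.2]) (Prod.mk.inj he).1
    rw [List.cons.injEq] at h2
    rw [h1, h2.2]

theorem Lam_le_abs (h : ℝ × ℝ) : Y981.L2.Lam h ≤ |h.1| + |h.2| := by
  apply Y981.L2X.Lam_le_of
  intro v hv
  have hR := Y981.L2X.Rate_nonneg hv
  have hd : |v.1| + |v.2| ≤ 1 := hv
  have a1 := abs_nonneg v.1
  have a2 := abs_nonneg v.2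
  have b1 := abs_nonneg h.1
  have b2 := abs_nonneg h.2
  have e1 : h.1 * v.1 ≤ |h.1| * |v.1| := by rw [← abs_mul]; exact le_abs_self _
  have e2 : h.2 * v.2 ≤ |h.2| * |v.2| := by rw [← abs_mul]; exact le_abs_self _
  have e3 : |h.1| * |v.1| ≤ |h.1| * 1 := mul_le_mul_of_nonneg_left (by linarith) b1
  have e4 : |h.2| * |v.2| ≤ |h.2| * 1 := mul_le_mul_of_nonneg_left (by linarith) b2
  linarith

/-- the half-plane walks with one step less -/
theorem half_low : ∃ K : ℝ, 0 ≤ K ∧ ∀ n : ℕ, 2 ≤ n → ∀ h : ℝ × ℝ, 0 ≤ h.2 →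
    Real.log (Y981.L2.Z h n) - K * Real.log n ^ 2 ≤ Real.log (V11252.SAW.ZH h n) ∧
    Real.log (Y981.L2.Z h (n + 1)) - |h.1| - h.2 - K * Real.log (n + 1 : ℕ) ^ 2 ≤
      Real.log (V11252.SAW.ZH h n) := by
  obtain ⟨K1, hK1, h1⟩ := V11252.SAW.half_energy
  obtain ⟨K2, hK2, h2⟩ := Y981.L2.c_le_hp
  obtain ⟨K3, hK3, h3⟩ := Y981.L2.Z_le
  have hlm := Real.log_nonneg H981.one_le_mu
  refine ⟨K1 + K2 + K3 + 3 * Real.log H981.mu, by positivity, fun n hn h hh => ?_⟩
  have hn0 : (0 : ℝ) < n := by exact_mod_cast (by omega : 0 < n)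
  obtain ⟨L, hL⟩ : ∃ L, L = Real.log (n : ℝ) ^ 2 := ⟨_, rfl⟩
  obtain ⟨L', hL'⟩ : ∃ L', L' = Real.log ((n + 1 : ℕ) : ℝ) ^ 2 := ⟨_, rfl⟩
  have hlog : Real.log 2 ≤ Real.log n := TH795.EP2.log_ge hn
  have hl2 := Real.log_two_gt_d9
  have hL0 : (0.4 : ℝ) ≤ L := by
    have h7 : (0.69 : ℝ) ^ 2 ≤ Real.log n ^ 2 :=
      pow_le_pow_left₀ (by norm_num) (by linarith) 2
    norm_num at h7
    rw [hL]
    linarith
  have hLL : L ≤ L' := by
    rw [hL, hL']
    apply pow_le_pow_left₀ (by linarith)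
    apply Real.log_le_log hn0
    push_cast
    linarith
  rw [← hL, ← hL']
  have hhp := Y981.L2.hp_pos hn
  have hZH := V11252.SAW.ZH_pos h hn
  have g1 := (h1 n hn h).2.1 hh
  rw [Real.log_div hZH.ne' hhp.ne', ← hL] at g1
  have g2 : Real.log (TH795.EP.c n) ≤ K2 * L + Real.log (Y981.L2.hp n) := by
    have := Real.log_le_log (TH795.EP2.c_pos n) (h2 n hn)
    rw [Real.log_mul (TH795.EP2.q_pos n K2).ne' hhp.ne'] at this
    unfold TH795.EP2.q at this
    rwa [Real.log_exp, ← hL] at this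
  have g3 : n * Real.log H981.mu ≤ Real.log (TH795.EP.c n) := by
    have h5 : H981.mu ^ n ≤ TH795.EP.c n := by rw [TH795.EP.c_eq]; exact H981.mu_pow_le n
    have h6 := Real.log_le_log (pow_pos H981.mu_pos n) h5
    rwa [Real.log_pow] at h6
  have g4 := h3 n hn h
  have g5 := h3 (n + 1) (by omega) h
  rw [← hL] at g4
  rw [← hL'] at g5
  have g6 := Lam_le_abs h
  rw [abs_of_nonneg hh] at g6
  have q1 := mul_le_mul_of_nonneg_left hLL hK1
  have q2 := mul_le_mul_of_nonneg_left hLL hK2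
  have q3 : 0 ≤ K3 * L := by positivity
  have q4 : 0 ≤ K3 * L' := mul_nonneg hK3 (by linarith)
  have q5 : Real.log H981.mu ≤ 3 * Real.log H981.mu * L' := by
    have : 0.4 ≤ L' := by linarith
    have := mul_le_mul_of_nonneg_left this hlm
    linarith
  have q6 : 0 ≤ 3 * Real.log H981.mu * L := by positivity
  push_cast at g5
  constructor
  · linarith
  · linarith

/-- **Main result.**  There is `K` such that for all `n, m ≥ 3`:
(1) for every force `f ∈ ℝ²`, two independent self-avoiding walks with `n` and `m` steps which are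
pulled by `f` and by `-f` are disjoint with probability at least
`exp (- K ((log n)^2 + (log m)^2))`;
(2) for all forces `f, f'` with `f₂ ≥ 0 ≥ f'₂` the walks pulled by `f` and `f'` are disjoint with
probability at least `exp (- K ((log n)^2 + (log m)^2) - min (|f₁|, |f'₁|))`. -/
theorem result : ∃ K : ℝ, ∀ n m : ℕ, 3 ≤ n → 3 ≤ m →
    (∀ f : ℝ × ℝ, Real.exp (-(K * (Real.log n ^ 2 + Real.log m ^ 2))) ≤ P n m f (-f)) ∧
    (∀ f f' : ℝ × ℝ, 0 ≤ f.2 → f'.2 ≤ 0 →
      Real.exp (-(K * (Real.log n ^ 2 + Real.log m ^ 2)) - min |f.1| |f'.1|) ≤ P n m f f') := by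
  obtain ⟨K1, hK1, h1⟩ := Y981.L2.Z_le
  obtain ⟨K2, hK2, h2⟩ := half_low
  refine ⟨K1 + K2, fun n m hn hm => ⟨fun f => ?_, fun f f' hf hf' => ?_⟩⟩
  · have hZn := Y981.L2.Z_pos f n
    have hZm := Y981.L2.Z_pos (-f) m
    have hZ := Y981.L2.Z_pos f (n + m)
    have g1 := split_le n m f
    rw [Z_eq] at g1
    unfold P
    rw [Z_eq, Z_eq, le_div_iff₀ (mul_pos hZn hZm)]
    refine le_trans ?_ g1
    have g2 := h1 n (by omega) f
    have g3 := h1 m (by omega) (-f)
    have g4 := Y981.L2.Lam_le f (n := n + m) (by omega)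
    have e : Y981.L2.Lam (-f) = Y981.L2.Lam f := by
      have e1 := Y981.L2.Lam_sg f
      have e2 := Y981.L2.Lam_ng (-f.1, f.2)
      rw [← e1, ← e2]
      rfl
    rw [e] at g3
    have e3 : Real.exp (-((K1 + K2) * (Real.log (n : ℝ) ^ 2 + Real.log (m : ℝ) ^ 2))) *
        (Y981.L2.Z f n * Y981.L2.Z (-f) m) =
        Real.exp (-((K1 + K2) * (Real.log (n : ℝ) ^ 2 + Real.log (m : ℝ) ^ 2)) +
          (Real.log (Y981.L2.Z f n) + Real.log (Y981.L2.Z (-f) m))) := by
      rw [Real.exp_add, Real.exp_add, Real.exp_log hZn, Real.exp_log hZm]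
    rw [e3, ← Real.le_log_iff_exp_le hZ]
    push_cast at g4
    have p2 : 0 ≤ K2 * (Real.log (n : ℝ) ^ 2 + Real.log (m : ℝ) ^ 2) := by positivity
    linarith
  · have hZn := Y981.L2.Z_pos f n
    have hZm := Y981.L2.Z_pos f' m
    have p1 : 0 ≤ K1 * (Real.log (n : ℝ) ^ 2 + Real.log (m : ℝ) ^ 2) := by positivity
    have hsym : ∀ k : ℕ, Y981.L2.Z (f'.1, -f'.2) k = Y981.L2.Z f' k := fun k => Y981.L2.Z_ng f' k
    unfold P
    rw [Z_eq, Z_eq, le_div_iff₀ (mul_pos hZn hZm)]
    have e3 : ∀ t : ℝ, Real.exp t * (Y981.L2.Z f n * Y981.L2.Z f' m) =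
        Real.exp (t + (Real.log (Y981.L2.Z f n) + Real.log (Y981.L2.Z f' m))) := by
      intro t
      rw [Real.exp_add, Real.exp_add, Real.exp_log hZn, Real.exp_log hZm]
    rw [e3]
    rcases le_total |f.1| |f'.1| with hle | hle
    · -- shorten the first walk
      rw [min_eq_left hle]
      obtain ⟨n', rfl⟩ : ∃ n', n = n' + 1 := ⟨n - 1, by omega⟩
      have g1 := half_le' n' m f f'
      refine le_trans ?_ g1
      have hA := V11252.SAW.ZH_pos f (n := n') (by omega)
      have hB := V11252.SAW.ZH_pos (f'.1, -f'.2) (n := m) (by omega)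
      have e4 : Real.exp f.2 * (V11252.SAW.ZH f n' * V11252.SAW.ZH (f'.1, -f'.2) m) =
          Real.exp (f.2 + (Real.log (V11252.SAW.ZH f n') +
            Real.log (V11252.SAW.ZH (f'.1, -f'.2) m))) := by
        rw [Real.exp_add, Real.exp_add, Real.exp_log hA, Real.exp_log hB]
      rw [e4]
      apply Real.exp_le_exp.2
      have g2 := (h2 n' (by omega) f hf).2
      have g3 := (h2 m (by omega) (f'.1, -f'.2) (by simp only; linarith)).1
      rw [hsym] at g3
      linarith
    · rw [min_eq_right hle]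
      obtain ⟨m', rfl⟩ : ∃ m', m = m' + 1 := ⟨m - 1, by omega⟩
      have g1 := half_le n m' f f'
      refine le_trans ?_ g1
      have hA := V11252.SAW.ZH_pos f (n := n) (by omega)
      have hB := V11252.SAW.ZH_pos (f'.1, -f'.2) (n := m') (by omega)
      have e4 : V11252.SAW.ZH f n * (Real.exp (-f'.2) * V11252.SAW.ZH (f'.1, -f'.2) m') =
          Real.exp (Real.log (V11252.SAW.ZH f n) + (-f'.2 +
            Real.log (V11252.SAW.ZH (f'.1, -f'.2) m'))) := by
        rw [Real.exp_add, Real.exp_add, Real.exp_log hA, Real.exp_log hB]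
      rw [e4]
      apply Real.exp_le_exp.2
      have g2 := (h2 m' (by omega) (f'.1, -f'.2) (by simp only; linarith)).2
      have g3 := (h2 n (by omega) f hf).1
      rw [hsym] at g2
      simp only at g2
      linarith

end Pool.Agent.Results.MP_8c6f77_pr.PulledApart
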